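import Mathlib

set_option autoImplicit false

namespace Pool.Agent.H.KRot
open Real MeasureTheory Set

noncomputable def om : ℝ := 1 / 10000
noncomputable def F (x : ℝ) : ℝ := -(1 / 100 * sin (om * log (1 - x ^ 2)))
noncomputable def ps (z : ℝ) : ℝ := ∫ x in (0 : ℝ)..z, F x
/-- squared test scales -/
noncomputable def RR (j : ℕ) : ℝ := exp (-(j * π / om))

theorem om_pos : 0 < om := by unfold om; norm_num

theorem F_abs (x : ℝ) : |F x| ≤ 1 / 100 := by
  unfold F
  rw [abs_neg, abs_mul]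
  have := abs_sin_le_one (om * log (1 - x ^ 2))
  rw [abs_of_pos (by norm_num : (0 : ℝ) < 1 / 100)]
  linarith

theorem F_neg (x : ℝ) : F (-x) = F x := by unfold F; rw [neg_sq]

theorem F_meas : Measurable F := by
  unfold F
  have : Measurable fun x : ℝ => log (1 - x ^ 2) := measurable_log.comp (by fun_prop)
  exact ((Real.continuous_sin.measurable.comp (this.const_mul om)).const_mul _).neg

theorem F_int (a b : ℝ) : IntervalIntegrable F volume a b := by
  refine (intervalIntegrable_const (c := (1 / 100 : ℝ))).mono_fun' F_meas.aestronglyMeasurable ?_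
  exact Filter.Eventually.of_forall fun x => by simpa using F_abs x

theorem ps_sub (a b : ℝ) : ps b - ps a = ∫ x in a..b, F x := by
  unfold ps
  exact intervalIntegral.integral_interval_sub_left (F_int _ _) (F_int _ _)

theorem ps_neg (z : ℝ) : ps (-z) = -ps z := by
  unfold ps
  have h := intervalIntegral.integral_comp_neg (a := 0) (b := z) F
  simp only [F_neg, neg_zero] at h
  rw [h, intervalIntegral.integral_symm]

theorem ps_zero : ps 0 = 0 := by simp [ps]

theorem int_bound {a b C : ℝ} (k : ℝ) (h : ∀ x ∈ uIoc a b, |F x - k| ≤ C) :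
    |ps b - ps a - k * (b - a)| ≤ C * |b - a| := by
  have e : ps b - ps a - k * (b - a) = ∫ x in a..b, (F x - k) := by
    rw [intervalIntegral.integral_sub (F_int _ _) intervalIntegrable_const, ps_sub]
    simp [mul_comm]
  rw [e]
  exact intervalIntegral.norm_integral_le_of_norm_le_const (f := fun x => F x - k) h

theorem RR_pos (j : ℕ) : 0 < RR j := exp_pos _

theorem RR_zero : RR 0 = 1 := by simp [RR]

theorem RR_le (j : ℕ) : RR j ≤ 1 / (1 + 30000 * j) := by
  unfold RR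
  rw [exp_neg, one_div]
  have hj : (0 : ℝ) ≤ j := Nat.cast_nonneg j
  apply inv_anti₀ (by positivity)
  have h1 := add_one_le_exp (j * π / om)
  have h2 : 30000 * (j : ℝ) ≤ j * π / om := by
    unfold om
    have := pi_gt_three
    rw [le_div_iff₀ (by norm_num)]
    nlinarith
  linarith

theorem log100 : log 100 ≤ 5 := by
  rw [log_le_iff_le_exp (by norm_num)]
  have h := exp_one_gt_d9
  have : exp 5 = exp 1 ^ 5 := by rw [← exp_nat_mul]; norm_num
  rw [this]
  calc (100 : ℝ) ≤ 2.7 ^ 5 := by norm_num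
    _ ≤ _ := by gcongr; linarith

theorem sin_small (j : ℕ) {y : ℝ} (h1 : RR j / 100 ≤ y) (h2 : y ≤ 25 * RR j) :
    |sin (om * log y)| ≤ 5 * om := by
  have hR := RR_pos j
  have hy : 0 < y := by linarith
  have e : om * log y = om * log (y / RR j) - j * π := by
    rw [log_div hy.ne' hR.ne', RR, log_exp]
    have := om_pos.ne'
    field_simp
    ring
  rw [e, sin_sub_nat_mul_pi, abs_mul]
  have hl : |log (y / RR j)| ≤ 5 := by
    have a1 : log (y / RR j) ≤ log 100 := log_le_log (by positivity) (by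
      rw [div_le_iff₀ hR]; linarith)
    have a2 : log (100⁻¹) ≤ log (y / RR j) := log_le_log (by positivity) (by
      rw [le_div_iff₀ hR]; linarith)
    rw [log_inv] at a2
    have := log100
    rw [abs_le]; constructor <;> linarith
  have h3 : |sin (om * log (y / RR j))| ≤ |om * log (y / RR j)| := abs_sin_le_abs
  rw [abs_mul, abs_of_pos om_pos] at h3
  have h4 : |((-1 : ℝ)) ^ j| = 1 := by simp
  rw [h4, one_mul]
  have := om_pos
  nlinarith

theorem F_small (j : ℕ) {x : ℝ} (h1 : RR j / 100 ≤ 1 - x ^ 2) (h2 : 1 - x ^ 2 ≤ 25 * RR j) :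
    |F x| ≤ om / 20 := by
  unfold F
  rw [abs_neg, abs_mul, abs_of_pos (by norm_num : (0 : ℝ) < 1 / 100)]
  have := sin_small j h1 h2
  linarith

theorem tail (j : ℕ) {z : ℝ} (h0 : 0 ≤ z) (h1 : z ≤ 1) (h2 : 1 - z ^ 2 ≤ 25 * RR j) :
    |ps 1 - ps z| ≤ om / 20 * (1 - z) + RR j / 10000 := by
  have hR := RR_pos j
  have ho := om_pos
  have gen : ∀ a, a ≤ 1 → |ps 1 - ps a| ≤ 1 / 100 * (1 - a) := fun a ha => by
    have := int_bound (a := a) (b := 1) (C := 1 / 100) 0 fun x _ => by simpa using F_abs x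
    rw [abs_of_nonneg (by linarith : 0 ≤ 1 - a)] at this
    simpa using this
  by_cases hz : 1 - RR j / 100 ≤ z
  · have := gen z h1
    nlinarith
  push Not at hz
  have a1 := gen (1 - RR j / 100) (by linarith)
  have a2 := int_bound (a := z) (b := 1 - RR j / 100) (C := om / 20) 0 fun x hx => by
    rw [uIoc_of_le hz.le] at hx
    rw [sub_zero]
    obtain ⟨b1, b2⟩ := hx
    apply F_small j
    · nlinarith
    · nlinarith
  rw [abs_of_nonneg (by linarith : 0 ≤ 1 - RR j / 100 - z)] at a2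
  simp only [zero_mul, sub_zero] at a2
  have a3 := abs_sub_le (ps 1) (ps (1 - RR j / 100)) (ps z)
  nlinarith

theorem ps_abs {z : ℝ} (h : |z| ≤ 1) : |ps z| ≤ 21 / 100000 := by
  have key : ∀ z : ℝ, 0 ≤ z → z ≤ 1 → |ps z| ≤ 21 / 100000 := fun z h0 h1 => by
    have a1 := tail 0 h0 h1 (by rw [RR_zero]; nlinarith)
    have a2 := tail 0 le_rfl zero_le_one (by rw [RR_zero]; norm_num)
    rw [RR_zero] at a1 a2
    rw [ps_zero] at a2
    unfold om at a1 a2
    rw [abs_le] at *
    constructor <;> linarith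
  rw [abs_le] at h
  rcases le_total 0 z with h0 | h0
  · exact key z h0 h.2
  · have := key (-z) (by linarith) (by linarith)
    rwa [ps_neg, abs_neg] at this

/-- curvature function -/
noncomputable def mm (z : ℝ) : ℝ := ps z - z * F z
/-- second order remainder -/
noncomputable def DD (z w ε : ℝ) : ℝ := ps w - ps z - F z * (w - z) + ε * mm z

theorem mm_abs {z : ℝ} (h : |z| ≤ 1) : |mm z| ≤ 1021 / 100000 := by
  unfold mm
  have a1 := ps_abs h
  have a2 : |z * F z| ≤ 1 / 100 := by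
    rw [abs_mul]
    have := F_abs z
    nlinarith [abs_nonneg z, abs_nonneg (F z)]
  have := abs_sub (ps z) (z * F z)
  linarith

structure Dat (z w r σ : ℝ) : Prop where
  hz : |z| ≤ 1
  hw : |w| ≤ 1
  hr : 0 ≤ r
  hs : 0 ≤ σ
  hσ : σ ^ 2 = 1 - z ^ 2
  hd : |w - z + r ^ 2 / 2 * z| ≤ r * σ

theorem Dat.wz {z w r σ : ℝ} (h : Dat z w r σ) : |w - z| ≤ r * σ + r ^ 2 / 2 := by
  have a1 : |r ^ 2 / 2 * z| ≤ r ^ 2 / 2 := by
    rw [abs_mul, abs_of_nonneg (by positivity : 0 ≤ r ^ 2 / 2)]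
    have := h.hz
    nlinarith [sq_nonneg r]
  have a2 := abs_sub (w - z + r ^ 2 / 2 * z) (r ^ 2 / 2 * z)
  have := h.hd
  rw [add_sub_cancel_right] at a2
  linarith

theorem log_lip {a b m : ℝ} (hm : 0 < m) (ha : m ≤ a) (hb : m ≤ b) :
    |log a - log b| ≤ |a - b| / m := by
  have key : ∀ a b : ℝ, m ≤ a → m ≤ b → log a - log b ≤ |a - b| / m := fun a b ha hb => by
    have h0 : 0 < b := by linarith
    have h1 : 0 < a := by linarith
    rw [← log_div h1.ne' h0.ne']
    have := log_le_sub_one_of_pos (div_pos h1 h0)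
    have e : a / b - 1 = (a - b) / b := by field_simp
    rw [e] at this
    calc _ ≤ (a - b) / b := this
      _ ≤ |a - b| / b := by gcongr; exact le_abs_self _
      _ ≤ _ := by gcongr
  rw [abs_le]
  constructor
  · have := key b a hb ha
    rw [abs_sub_comm] at this
    linarith
  · exact key a b ha hb

theorem caseA {z w r σ : ℝ} (h : Dat z w r σ) (h4 : 4 * r ≤ σ) :
    |ps w - ps z - F z * (w - z)| ≤ 14 / 1000000 * (r ^ 2 / 2) := by
  have hwz := h.wz
  obtain ⟨hz, hw, hr, hs, hσ, -⟩ := h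
  rcases eq_or_lt_of_le hr with h0 | h0
  · subst h0
    have : w - z = 0 := by simpa using hwz
    have e : w = z := by linarith
    subst e
    simp
  have hσ0 : 0 < σ := by linarith
  have b1 : |w - z| ≤ 9 / 8 * (r * σ) := by nlinarith
  have := int_bound (a := z) (b := w) (C := 6 / 1000000 * (r / σ)) (F z) fun x hx => by
    have c1 : |x - z| ≤ |w - z| := by
      have := abs_sub_left_of_mem_uIcc (uIoc_subset_uIcc hx)
      exact this
    have c2 : |x| ≤ 1 := by
      rw [abs_le] at hz hw ⊢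
      rcases mem_uIoc.1 hx with ⟨c, d⟩ | ⟨c, d⟩ <;> constructor <;> linarith
    have c3 : |(1 - x ^ 2) - (1 - z ^ 2)| ≤ 9 / 4 * (r * σ) := by
      have e : (1 - x ^ 2) - (1 - z ^ 2) = -((x - z) * (x + z)) := by ring
      rw [e, abs_neg, abs_mul]
      have : |x + z| ≤ 2 := by have := abs_add_le x z; linarith
      nlinarith [abs_nonneg (x - z), abs_nonneg (x + z)]
    have c4 : 7 / 16 * σ ^ 2 ≤ 1 - x ^ 2 := by
      have := (abs_le.1 c3).1
      nlinarith
    have c5 := log_lip (m := 7 / 16 * σ ^ 2) (by positivity) c4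
      (show 7 / 16 * σ ^ 2 ≤ 1 - z ^ 2 by nlinarith)
    have c6 : |(1 - x ^ 2) - (1 - z ^ 2)| / (7 / 16 * σ ^ 2) ≤ 6 * (r / σ) := by
      rw [div_le_iff₀ (by positivity)]
      have e : 6 * (r / σ) * (7 / 16 * σ ^ 2) = 21 / 8 * (r * σ) := by field_simp; ring
      rw [e]
      nlinarith [mul_pos h0 hσ0]
    have c7 := abs_sin_sub_sin_le (om * log (1 - x ^ 2)) (om * log (1 - z ^ 2))
    rw [← mul_sub, abs_mul, abs_of_pos om_pos] at c7
    have e : F x - F z = -(1 / 100 * (sin (om * log (1 - x ^ 2)) - sin (om * log (1 - z ^ 2)))) := by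
      unfold F; ring
    rw [e, abs_neg, abs_mul, abs_of_pos (by norm_num : (0 : ℝ) < 1 / 100)]
    unfold om at c7 ⊢
    linarith
  refine this.trans ?_
  calc 6 / 1000000 * (r / σ) * |w - z| ≤ 6 / 1000000 * (r / σ) * (9 / 8 * (r * σ)) := by gcongr
    _ = 27 / 4000000 * r ^ 2 := by field_simp; ring
    _ ≤ _ := by nlinarith [sq_nonneg r]

theorem D_le {z w r σ : ℝ} (h : Dat z w r σ) : |DD z w (r ^ 2 / 2)| ≤ r ^ 2 / 2 := by
  have a1 : |ps w - ps z - F z * (w - z)| ≤ 1 / 2 * (r ^ 2 / 2) := by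
    rcases le_total (4 * r) σ with h4 | h4
    · have := caseA h h4
      nlinarith [sq_nonneg r]
    · have b1 := h.wz
      have := int_bound (a := z) (b := w) (C := 2 / 100) (F z) fun x _ => by
        have := abs_sub (F x) (F z)
        have := F_abs x
        have := F_abs z
        linarith
      have hr := h.hr
      nlinarith
  have a2 : |r ^ 2 / 2 * mm z| ≤ r ^ 2 / 2 * (1021 / 100000) := by
    rw [abs_mul, abs_of_nonneg (by positivity : 0 ≤ r ^ 2 / 2)]
    have := mm_abs h.hz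
    gcongr
  unfold DD
  have := abs_add_le (ps w - ps z - F z * (w - z)) (r ^ 2 / 2 * mm z)
  nlinarith [sq_nonneg r]

theorem caseB {z w r σ : ℝ} (h : Dat z w r σ) (h4 : σ ≤ 4 * r) (j : ℕ) (hj : r ^ 2 = RR (j + 1)) :
    |DD z w (r ^ 2 / 2)| ≤ 1 / 200 * (r ^ 2 / 2) := by
  have hwz := h.wz
  obtain ⟨hz, hw, hr, hs, hσ, hd⟩ := h
  have hR := RR_pos (j + 1)
  have hR1 : RR (j + 1) ≤ 1 / 1000 := by
    refine (RR_le _).trans ?_
    have : (0 : ℝ) ≤ j := Nat.cast_nonneg j
    push_cast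
    apply one_div_le_one_div_of_le (by norm_num)
    linarith
  have b1 : |w - z| ≤ 9 / 2 * r ^ 2 := by nlinarith
  have b2 : 1 - z ^ 2 ≤ 16 * r ^ 2 := by nlinarith
  have b3 : 1 - w ^ 2 ≤ 25 * r ^ 2 := by
    have : |(w - z) * (w + z)| ≤ 9 * r ^ 2 := by
      rw [abs_mul]
      have : |w + z| ≤ 2 := by have := abs_add_le w z; linarith
      nlinarith [abs_nonneg (w - z), abs_nonneg (w + z)]
    have := (abs_le.1 this).1
    nlinarith
  have e : DD z w (r ^ 2 / 2) = r ^ 2 / 2 * ps z - F z * (w - z + r ^ 2 / 2 * z) + (ps w - ps z) := by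
    unfold DD mm; ring
  have a1 : |r ^ 2 / 2 * ps z| ≤ r ^ 2 / 2 * (21 / 100000) := by
    rw [abs_mul, abs_of_nonneg (by positivity : 0 ≤ r ^ 2 / 2)]
    have := ps_abs hz
    gcongr
  have a2 : |F z * (w - z + r ^ 2 / 2 * z)| ≤ 102 / 100000 * r ^ 2 := by
    rw [abs_mul]
    rcases le_total σ (r / 10) with c | c
    · calc _ ≤ 1 / 100 * (r * σ) := mul_le_mul (F_abs z) hd (abs_nonneg _) (by norm_num)
        _ ≤ _ := by nlinarith
    · have := F_small (j + 1) (x := z) (by nlinarith) (by nlinarith)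
      calc _ ≤ om / 20 * (r * σ) := mul_le_mul this hd (abs_nonneg _) (by have := om_pos; positivity)
        _ ≤ _ := by unfold om; nlinarith
  have key : ∀ z w : ℝ, 0 ≤ z → z ≤ 1 → w ≤ 1 → |w - z| ≤ 9 / 2 * r ^ 2 → 1 - z ^ 2 ≤ 16 * r ^ 2 →
      1 - w ^ 2 ≤ 25 * r ^ 2 → |ps w - ps z| ≤ 45 / 100000 * r ^ 2 := by
    intro z w z0 z1 w1 c1 c2 c3
    have z2 : 1 / 2 ≤ z := by nlinarith
    have w0 : 0 ≤ w := by have := (abs_le.1 c1).1; nlinarith
    have t1 := tail (j + 1) z0 z1 (by nlinarith)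
    have t2 := tail (j + 1) w0 w1 (by nlinarith)
    have t3 : 1 - z ≤ 25 * r ^ 2 := by nlinarith
    have t4 : 1 - w ≤ 25 * r ^ 2 := by nlinarith
    unfold om at t1 t2
    rw [← hj] at t1 t2
    rw [abs_le] at t1 t2 ⊢
    constructor <;> linarith
  have a3 : |ps w - ps z| ≤ 45 / 100000 * r ^ 2 := by
    rw [abs_le] at hz hw
    rcases le_total 0 z with c | c
    · exact key z w c hz.2 hw.2 b1 b2 b3
    · have := key (-z) (-w) (by linarith) (by linarith) (by linarith)
        (by rw [← abs_neg]; convert b1 using 2; ring) (by simpa using b2) (by simpa using b3)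
      rw [ps_neg, ps_neg, ← abs_neg] at this
      convert this using 2; ring
  rw [e]
  have t1 := abs_add_le (r ^ 2 / 2 * ps z - F z * (w - z + r ^ 2 / 2 * z)) (ps w - ps z)
  have t2 := abs_sub (r ^ 2 / 2 * ps z) (F z * (w - z + r ^ 2 / 2 * z))
  nlinarith [sq_nonneg r]

/-- the sign choice -/
noncomputable def sg (z : ℝ) : ℝ := if 0 ≤ mm z then 1 else -1

theorem sg_abs (z : ℝ) : |sg z| = 1 := by unfold sg; split_ifs <;> simp

theorem exist_test {z w r σ : ℝ} (h : Dat z w r σ) (j : ℕ) (hj : r ^ 2 = RR (j + 1)) :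
    |DD z w (r ^ 2 / 2) - sg z * (r ^ 2 / 2 / 400)| ≤ r ^ 2 / 2 * (78 / 10000) := by
  have h0 : 0 ≤ r ^ 2 / 2 := by positivity
  rcases le_total (4 * r) σ with h4 | h4
  · have a1 := abs_le.1 (caseA h h4)
    have a2 := abs_le.1 (mm_abs h.hz)
    unfold DD sg
    rw [abs_le]
    split_ifs with c
    · constructor <;> nlinarith
    · push Not at c
      constructor <;> nlinarith
  · have a1 := abs_le.1 (caseB h h4 j hj)
    unfold sg
    rw [abs_le]
    split_ifs with c <;> constructor <;> linarith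

theorem force_test {z w r σ s : ℝ} (h : Dat z w r σ) (h4 : 4 * r ≤ σ) (hr : 0 < r)
    (hs : |DD z w (r ^ 2 / 2) - s * (r ^ 2 / 2 / 400)| ≤ r ^ 2 / 2 * (78 / 10000)) :
    |mm z - s / 400| ≤ 782 / 100000 := by
  have h0 : 0 < r ^ 2 / 2 := by positivity
  have a1 := abs_le.1 (caseA h h4)
  unfold DD at hs
  rw [abs_le] at hs ⊢
  constructor
  · by_contra c
    push Not at c
    nlinarith
  · by_contra c
    push Not at c
    nlinarith

theorem shell (φ : ℝ) {z₁ : ℝ} (h1 : z₁ < 1) :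
    ∃ z, z₁ ≤ z ∧ 99 / 100 ≤ z ∧ z < 1 ∧ F z = -(1 / 100 * sin φ) := by
  have ho := om_pos
  set η := min (1 - z₁) (1 / 100) with hη
  have η0 : 0 < η := lt_min (by linarith) (by norm_num)
  obtain ⟨n, hn⟩ := exists_nat_ge (φ - om * log η)
  set Y := exp ((φ - n * (2 * π)) / om) with hY
  have Y0 : 0 < Y := exp_pos _
  have Y1 : Y ≤ η := by
    rw [hY, ← le_log_iff_exp_le η0, div_le_iff₀ ho]
    have := pi_gt_three
    have : (0 : ℝ) ≤ n := Nat.cast_nonneg n
    nlinarith
  have e1 : η ≤ 1 - z₁ := min_le_left _ _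
  have e2 : η ≤ 1 / 100 := min_le_right _ _
  have s1 : 1 - Y ≤ sqrt (1 - Y) := by
    apply le_sqrt_of_sq_le
    nlinarith
  refine ⟨sqrt (1 - Y), by linarith, by linarith, ?_, ?_⟩
  · rw [sqrt_lt' one_pos]; linarith
  · unfold F
    rw [sq_sqrt (by linarith), sub_sub_cancel, hY, log_exp, mul_div_cancel₀ _ ho.ne',
      sin_sub_nat_mul_two_pi]

theorem shell_pos {z₁ : ℝ} (h1 : z₁ < 1) : ∃ z, z₁ ≤ z ∧ 0 ≤ z ∧ z < 1 ∧ 969 / 100000 ≤ mm z := by
  obtain ⟨z, a, b, c, d⟩ := shell (π / 2) h1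
  refine ⟨z, a, by linarith, c, ?_⟩
  have := abs_le.1 (ps_abs (z := z) (by rw [abs_le]; constructor <;> linarith))
  unfold mm
  rw [d, sin_pi_div_two]
  linarith

theorem shell_neg {z₁ : ℝ} (h1 : z₁ < 1) : ∃ z, z₁ ≤ z ∧ 0 ≤ z ∧ z < 1 ∧ mm z ≤ -(969 / 100000) := by
  obtain ⟨z, a, b, c, d⟩ := shell (-(π / 2)) h1
  refine ⟨z, a, by linarith, c, ?_⟩
  have := abs_le.1 (ps_abs (z := z) (by rw [abs_le]; constructor <;> linarith))
  unfold mm
  rw [d, sin_neg, sin_pi_div_two]
  linarith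

end Pool.Agent.H.KRot
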