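import Pool.Agent.H.MP_f4a04c_gt.A

set_option autoImplicit false

namespace Pool.Agent.H.KRot
open Real Set Matrix

abbrev E3 := EuclideanSpace ℝ (Fin 3)

noncomputable def e0 : E3 := EuclideanSpace.single 0 1
noncomputable def e2 : E3 := EuclideanSpace.single 2 1

theorem inner3 (x y : E3) : inner ℝ x y = x 0 * y 0 + x 1 * y 1 + x 2 * y 2 := by
  simp [PiLp.inner_apply, Fin.sum_univ_three]; ring

theorem norm3 (x : E3) : ‖x‖ ^ 2 = x 0 ^ 2 + x 1 ^ 2 + x 2 ^ 2 := by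
  rw [← real_inner_self_eq_norm_sq, inner3]; ring

theorem e0_norm : ‖e0‖ = 1 := by simp [e0]
theorem inner_e0 (x : E3) : inner ℝ x e0 = x 0 := by simp [inner3, e0]
theorem inner_e0' (x : E3) : inner ℝ e0 x = x 0 := by simp [inner3, e0]
theorem inner_e2' (x : E3) : inner ℝ e2 x = x 2 := by simp [inner3, e2]

theorem coord_le (x : E3) (i : Fin 3) : |x i| ≤ ‖x‖ := by
  simpa using PiLp.norm_apply_le x i

noncomputable def gg (v : E3) : E3 := ps (v 0) • v + F (v 0) • (e0 - v 0 • v)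
noncomputable def pp (v : E3) : E3 := v + gg v

theorem gg_neg (v : E3) : gg (-v) = gg v := by
  unfold gg
  simp only [PiLp.neg_apply, ps_neg, F_neg]
  module

theorem pp_neg (v : E3) : pp (-v) = pp v - (2 : ℝ) • v := by
  unfold pp
  rw [gg_neg]
  module

theorem sig {v : E3} (hv : ‖v‖ = 1) : ‖e0 - v 0 • v‖ ^ 2 = 1 - v 0 ^ 2 := by
  rw [norm_sub_sq_real, e0_norm, inner_smul_right, inner_e0', norm_smul, hv]
  simp only [norm_eq_abs, mul_one, sq_abs]
  ring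

theorem dist2 {v u : E3} (hv : ‖v‖ = 1) (hu : ‖u‖ = 1) : ‖u - v‖ ^ 2 / 2 = 1 - inner ℝ v u := by
  rw [norm_sub_sq_real, hv, hu, real_inner_comm]
  ring

theorem dat {v u : E3} (hv : ‖v‖ = 1) (hu : ‖u‖ = 1) :
    Dat (v 0) (u 0) ‖u - v‖ ‖e0 - v 0 • v‖ where
  hz := hv ▸ coord_le v 0
  hw := hu ▸ coord_le u 0
  hr := norm_nonneg _
  hs := norm_nonneg _
  hσ := sig hv
  hd := by
    refine le_trans (le_of_eq ?_) (abs_real_inner_le_norm _ _)
    congr 1
    rw [dist2 hv hu, inner_sub_left, inner_sub_right, inner_sub_right, inner_smul_right,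
      inner_smul_right, inner_e0, inner_e0, real_inner_self_eq_norm_sq, hv, real_inner_comm v u]
    ring

theorem pp_inner {v u : E3} (hv : ‖v‖ = 1) (hu : ‖u‖ = 1) :
    inner ℝ (pp v) u = 1 - ‖u - v‖ ^ 2 / 2 + ps (u 0) - DD (v 0) (u 0) (‖u - v‖ ^ 2 / 2) := by
  unfold pp gg DD mm
  rw [dist2 hv hu, inner_add_left, inner_add_left, real_inner_smul_left, real_inner_smul_left,
    inner_sub_left, real_inner_smul_left, inner_e0']
  ring

theorem pp_self {u : E3} (hu : ‖u‖ = 1) : inner ℝ (pp u) u = 1 + ps (u 0) := by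
  rw [pp_inner hu hu]
  simp [DD]

theorem gg_norm {v : E3} (hv : ‖v‖ = 1) : ‖gg v‖ ≤ 2 / 100 := by
  unfold gg
  refine (norm_add_le _ _).trans ?_
  rw [norm_smul, norm_smul, hv, norm_eq_abs, norm_eq_abs]
  have a1 := ps_abs (z := v 0) (hv ▸ coord_le v 0)
  have a2 := F_abs (v 0)
  have a3 : ‖e0 - v 0 • v‖ ≤ 1 := by
    have := sig hv
    nlinarith [norm_nonneg (e0 - v 0 • v), sq_nonneg (v 0)]
  nlinarith [abs_nonneg (F (v 0)), norm_nonneg (e0 - v 0 • v)]

/-- the body of constant width -/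
def SS : Set E3 := {y | ∀ u : E3, ‖u‖ = 1 → inner ℝ y u ≤ 1 + ps (u 0)}

theorem pp_mem {v : E3} (hv : ‖v‖ = 1) : pp v ∈ SS := fun u hu => by
  rw [pp_inner hv hu]
  have := (abs_le.1 (D_le (dat hv hu))).1
  linarith

theorem SS_lower {y : E3} (hy : y ∈ SS) {u : E3} (hu : ‖u‖ = 1) :
    -1 + ps (u 0) ≤ inner ℝ y u := by
  have := hy (-u) (by simpa using hu)
  rw [inner_neg_right, PiLp.neg_apply, ps_neg] at this
  linarith

theorem norm_le_of_inner {a : E3} {C : ℝ} (hC : 0 ≤ C) (h : ∀ u : E3, ‖u‖ = 1 → inner ℝ a u ≤ C) :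
    ‖a‖ ≤ C := by
  rcases eq_or_ne a 0 with rfl | h0
  · simpa using hC
  · have hn : ‖a‖ ≠ 0 := norm_ne_zero_iff.2 h0
    have := h (‖a‖⁻¹ • a) (by rw [norm_smul]; simp [hn])
    rw [inner_smul_right, real_inner_self_eq_norm_sq] at this
    have e : ‖a‖⁻¹ * ‖a‖ ^ 2 = ‖a‖ := by field_simp
    linarith

theorem SS_diam {y y' : E3} (hy : y ∈ SS) (hy' : y' ∈ SS) : ‖y - y'‖ ≤ 2 :=
  norm_le_of_inner (by norm_num) fun u hu => by
    rw [inner_sub_left]
    have := hy u hu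
    have := SS_lower hy' hu
    linarith

theorem SS_convex : Convex ℝ SS := fun x hx y hy a b ha hb hab u hu => by
  rw [inner_add_left, real_inner_smul_left, real_inner_smul_left]
  have h1 := hx u hu
  have h2 := hy u hu
  calc _ ≤ a * (1 + ps (u 0)) + b * (1 + ps (u 0)) := by gcongr
    _ = _ := by rw [← add_mul, hab, one_mul]

theorem SS_compact : IsCompact SS := by
  apply Metric.isCompact_of_isClosed_isBounded
  · have : SS = ⋂ u : E3, ⋂ _ : ‖u‖ = 1, {y | inner ℝ y u ≤ 1 + ps (u 0)} := by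
      ext y; simp [SS]
    rw [this]
    exact isClosed_iInter fun u => isClosed_iInter fun _ =>
      isClosed_le (by fun_prop) continuous_const
  · refine (Metric.isBounded_closedBall (x := pp e0) (r := 2)).subset fun y hy => ?_
    rw [mem_closedBall_iff_norm]
    exact SS_diam hy (pp_mem e0_norm)

/-- half squared scale -/
noncomputable def ep (j : ℕ) : ℝ := RR (j + 1) / 2

theorem ep_pos (j : ℕ) : 0 < ep j := half_pos (RR_pos _)
theorem ep_le (j : ℕ) : ep j ≤ 1 / 2 := by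
  unfold ep
  have := RR_le (j + 1)
  have h2 : 1 / (1 + 30000 * ((j + 1 : ℕ) : ℝ)) ≤ 1 := by
    rw [div_le_one (by positivity)]
    have : (0 : ℝ) ≤ ((j + 1 : ℕ) : ℝ) := Nat.cast_nonneg _
    linarith
  linarith

/-- test directions -/
noncomputable def UU (j : ℕ) : E3 :=
  !₂[1 - ep j, sqrt (1 - (1 - ep j) ^ 2 - (ep j / 400) ^ 2), -(ep j / 400)]

theorem UU0 (j : ℕ) : UU j 0 = 1 - ep j := by simp [UU]
theorem UU2 (j : ℕ) : UU j 2 = -(ep j / 400) := by simp [UU]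

theorem UU_norm (j : ℕ) : ‖UU j‖ = 1 := by
  have h : ‖UU j‖ ^ 2 = 1 := by
    rw [norm3, UU0, UU2]
    have : UU j 1 = sqrt (1 - (1 - ep j) ^ 2 - (ep j / 400) ^ 2) := by simp [UU]
    rw [this, sq_sqrt]
    · ring
    · have := ep_pos j
      have := ep_le j
      nlinarith
  have := norm_nonneg (UU j)
  nlinarith

/-- the Kakeya body -/
def KK : Set E3 := {y | (y 0 + 1) ^ 2 + y 1 ^ 2 ≤ 4 ∧ (y 0 - 1) ^ 2 + y 1 ^ 2 ≤ 4 ∧ |y 2| ≤ 3 ∧
  ∀ j, |inner ℝ y (UU j)| ≤ 1 + ep j * (78 / 10000)}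

theorem sq_cvx {a b x y x' y' : ℝ} (ha : 0 ≤ a) (hb : 0 ≤ b) (hab : a + b = 1)
    (h : x ^ 2 + y ^ 2 ≤ 4) (h' : x' ^ 2 + y' ^ 2 ≤ 4) :
    (a * x + b * x') ^ 2 + (a * y + b * y') ^ 2 ≤ 4 := by
  have e : b = 1 - a := by linarith
  subst e
  nlinarith [mul_nonneg ha hb, sq_nonneg (x - x'), sq_nonneg (y - y'),
    mul_nonneg (mul_nonneg ha hb) (sq_nonneg (x - x')),
    mul_nonneg (mul_nonneg ha hb) (sq_nonneg (y - y'))]

theorem abs_cvx {a b x y C : ℝ} (ha : 0 ≤ a) (hb : 0 ≤ b) (hab : a + b = 1)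
    (h : |x| ≤ C) (h' : |y| ≤ C) : |a * x + b * y| ≤ C := by
  refine (abs_add_le _ _).trans ?_
  rw [abs_mul, abs_mul, abs_of_nonneg ha, abs_of_nonneg hb]
  calc _ ≤ a * C + b * C := by gcongr
    _ = _ := by rw [← add_mul, hab, one_mul]

theorem KK_convex : Convex ℝ KK := fun x hx y hy a b ha hb hab => by
  obtain ⟨x1, x2, x3, x4⟩ := hx
  obtain ⟨y1, y2, y3, y4⟩ := hy
  refine ⟨?_, ?_, ?_, fun j => ?_⟩
  · have := sq_cvx ha hb hab x1 y1
    simp only [PiLp.add_apply, PiLp.smul_apply, smul_eq_mul]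
    convert this using 3
    linear_combination -hab
  · have := sq_cvx ha hb hab x2 y2
    simp only [PiLp.add_apply, PiLp.smul_apply, smul_eq_mul]
    convert this using 3
    linear_combination hab
  · simpa using abs_cvx ha hb hab x3 y3
  · rw [inner_add_left, real_inner_smul_left, real_inner_smul_left]
    exact abs_cvx ha hb hab (x4 j) (y4 j)

theorem KK_compact : IsCompact KK := by
  apply Metric.isCompact_of_isClosed_isBounded
  · unfold KK
    simp only [setOf_and, setOf_forall]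
    refine (isClosed_le (by fun_prop) continuous_const).inter
      ((isClosed_le (by fun_prop) continuous_const).inter
        ((isClosed_le (by fun_prop) continuous_const).inter
          (isClosed_iInter fun j => isClosed_le (by fun_prop) continuous_const)))
  · refine (Metric.isBounded_closedBall (x := 0) (r := 4)).subset fun y hy => ?_
    obtain ⟨y1, y2, y3, -⟩ := hy
    rw [mem_closedBall_zero_iff]
    have h := norm3 y
    have : y 2 ^ 2 ≤ 9 := by
      rw [abs_le] at y3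
      nlinarith
    nlinarith [norm_nonneg y]

/-- a rotation with its inverse -/
structure Rot (A B : E3 →ₗ[ℝ] E3) : Prop where
  adj : ∀ y u, inner ℝ (A y) u = inner ℝ y (B u)
  ab : ∀ u, A (B u) = u
  ba : ∀ u, B (A u) = u

theorem Rot.nB {A B : E3 →ₗ[ℝ] E3} (h : Rot A B) (u : E3) : ‖B u‖ = ‖u‖ := by
  rw [← sq_eq_sq₀ (norm_nonneg _) (norm_nonneg _), ← real_inner_self_eq_norm_sq,
    ← real_inner_self_eq_norm_sq, ← h.adj, h.ab]

theorem Rot.nA {A B : E3 →ₗ[ℝ] E3} (h : Rot A B) (u : E3) : ‖A u‖ = ‖u‖ := by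
  rw [← h.nB, h.ba]

theorem Rot.scale {A B : E3 →ₗ[ℝ] E3} (h : Rot A B) (j : ℕ) :
    ‖B (UU j) - B e0‖ ^ 2 = RR (j + 1) := by
  rw [← map_sub, h.nB]
  have := dist2 e0_norm (UU_norm j)
  rw [inner_e0', UU0] at this
  unfold ep at this
  linarith

theorem Rot.test {A B : E3 →ₗ[ℝ] E3} (h : Rot A B) (j : ℕ) (s : ℝ) (y : E3) :
    inner ℝ (A y + (e0 + s • e2 - A (pp (B e0)))) (UU j) =
      inner ℝ y (B (UU j)) - ps (B (UU j) 0) +
        (DD (B e0 0) (B (UU j) 0) (ep j) - s * (ep j / 400)) := by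
  have hv : ‖B e0‖ = 1 := by rw [h.nB, e0_norm]
  have hu : ‖B (UU j)‖ = 1 := by rw [h.nB, UU_norm]
  rw [inner_add_left, inner_sub_left, inner_add_left, real_inner_smul_left, h.adj, h.adj,
    pp_inner hv hu, h.scale, inner_e0', inner_e2', UU0, UU2]
  unfold ep
  ring

theorem Rot.exist {A B : E3 →ₗ[ℝ] E3} (h : Rot A B) :
    ∃ x, (fun v => A v + x) '' SS ⊆ KK := by
  have hv : ‖B e0‖ = 1 := by rw [h.nB, e0_norm]
  set s := sg (B e0 0) with hs
  refine ⟨e0 + s • e2 - A (pp (B e0)), ?_⟩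
  rintro _ ⟨y, hy, rfl⟩
  have hs1 : |s| = 1 := sg_abs _
  set Y := A y + (e0 + s • e2 - A (pp (B e0))) with hY
  have n1 : ‖Y - (e0 + s • e2)‖ ≤ 2 := by
    have : Y - (e0 + s • e2) = A (y - pp (B e0)) := by rw [hY, map_sub]; abel
    rw [this, h.nA]
    exact SS_diam hy (pp_mem hv)
  have n2 : ‖Y - (-e0 + s • e2)‖ ≤ 2 := by
    have : Y - (-e0 + s • e2) = A (y - pp (-B e0)) := by
      rw [hY, pp_neg, map_sub, map_sub, map_smul, h.ab]; module
    rw [this, h.nA]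
    exact SS_diam hy (pp_mem (by simpa using hv))
  have m1 : ‖Y - (e0 + s • e2)‖ ^ 2 = (Y 0 - 1) ^ 2 + Y 1 ^ 2 + (Y 2 - s) ^ 2 := by
    rw [norm3]; simp [e0, e2]
  have m2 : ‖Y - (-e0 + s • e2)‖ ^ 2 = (Y 0 + 1) ^ 2 + Y 1 ^ 2 + (Y 2 - s) ^ 2 := by
    rw [norm3]; simp [e0, e2]
  have p1 := pow_le_pow_left₀ (norm_nonneg _) n1 2
  have p2 := pow_le_pow_left₀ (norm_nonneg _) n2 2
  rw [m1] at p1
  rw [m2] at p2
  refine ⟨?_, ?_, ?_, fun j => ?_⟩
  · show (Y 0 + 1) ^ 2 + Y 1 ^ 2 ≤ 4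
    nlinarith [sq_nonneg (Y 2 - s)]
  · show (Y 0 - 1) ^ 2 + Y 1 ^ 2 ≤ 4
    nlinarith [sq_nonneg (Y 2 - s)]
  · show |Y 2| ≤ 3
    have : |Y 2 - s| ≤ 2 := by
      apply abs_le_of_sq_le_sq _ (by norm_num)
      nlinarith [sq_nonneg (Y 0 - 1), sq_nonneg (Y 1)]
    have := abs_add_le (Y 2 - s) s
    rw [sub_add_cancel] at this
    linarith
  · show |inner ℝ Y (UU j)| ≤ _
    have hu : ‖B (UU j)‖ = 1 := by rw [h.nB, UU_norm]
    rw [hY, h.test]
    have a1 := hy _ hu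
    have a2 := SS_lower hy hu
    have a3 := exist_test (dat hv hu) j (h.scale j)
    rw [h.scale, ← hs] at a3
    unfold ep
    rw [abs_le] at a3 ⊢
    constructor <;> linarith

theorem Rot.force {A B : E3 →ₗ[ℝ] E3} (h : Rot A B) {x : E3} (hx : (fun v => A v + x) '' SS ⊆ KK)
    (hz : B e0 0 ^ 2 < 1) : |mm (B e0 0) - x 2 / 400| ≤ 787 / 100000 := by
  have hv : ‖B e0‖ = 1 := by rw [h.nB, e0_norm]
  have k1 : A (pp (B e0)) + x ∈ KK := hx ⟨_, pp_mem hv, rfl⟩
  have k2 : A (pp (-B e0)) + x ∈ KK := hx ⟨_, pp_mem (by simpa using hv), rfl⟩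
  set Y := A (pp (B e0)) + x with hY
  have e : A (pp (-B e0)) + x = Y - (2 : ℝ) • e0 := by
    rw [hY, pp_neg, map_sub, map_smul, h.ab]; abel
  rw [e] at k2
  have q1 := k1.1
  have q2 := k2.2.1
  simp [e0] at q2
  have y0 : Y 0 = 1 := by nlinarith [sq_nonneg (Y 1), sq_nonneg (Y 0 - 1)]
  have y1 : Y 1 = 0 := by
    rw [y0] at q1
    nlinarith [sq_nonneg (Y 1)]
  have hx' : x = e0 + Y 2 • e2 - A (pp (B e0)) := by
    have : Y = e0 + Y 2 • e2 := by
      ext i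
      fin_cases i <;> simp [e0, e2, y0, y1]
    rw [← this, hY]; abel
  set s := Y 2 with hs
  have hσ := sig hv
  set σ := ‖e0 - B e0 0 • B e0‖ with hσd
  have σ0 : 0 < σ ^ 2 := by linarith
  obtain ⟨j, hj⟩ := exists_nat_ge (1 / σ ^ 2)
  have hu : ‖B (UU j)‖ = 1 := by rw [h.nB, UU_norm]
  have hd := dat hv hu
  have hsc := h.scale j
  have hR := RR_pos (j + 1)
  have r0 : 0 < ‖B (UU j) - B e0‖ := by
    rcases (norm_nonneg (B (UU j) - B e0)).eq_or_lt with c | c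
    · rw [← c] at hsc; linarith
    · exact c
  have h4 : 4 * ‖B (UU j) - B e0‖ ≤ σ := by
    apply le_trans (le_abs_self _) (abs_le_of_sq_le_sq _ (norm_nonneg _))
    rw [mul_pow, hsc]
    have b1 := RR_le (j + 1)
    rw [div_le_iff₀ σ0] at hj
    have j0 : (0 : ℝ) ≤ j := Nat.cast_nonneg j
    rw [le_div_iff₀ (by positivity)] at b1
    push_cast at b1
    by_contra c
    push Not at c
    nlinarith [mul_le_mul_of_nonneg_left c.le j0]
  have t1 := (hx ⟨_, pp_mem hu, rfl⟩).2.2.2 j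
  have t2 := (hx ⟨_, pp_mem (v := -B (UU j)) (by simpa using hu), rfl⟩).2.2.2 j
  beta_reduce at t1 t2
  rw [hx', h.test] at t1 t2
  rw [pp_self hu] at t1
  rw [pp_neg, inner_sub_left, pp_self hu, real_inner_smul_left, real_inner_self_eq_norm_sq,
    hu] at t2
  have ft := force_test (s := s) hd h4 r0 (by
    rw [hsc]
    unfold ep at t1 t2
    rw [abs_le] at t1 t2 ⊢
    constructor <;> linarith)
  have x2 : |x 2 - s| ≤ 2 / 100 := by
    have : x 2 - s = -(A (gg (B e0)) 2) := by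
      rw [hx', pp, map_add, h.ab]
      simp [e0, e2]
    rw [this, abs_neg]
    exact (coord_le _ _).trans (by rw [h.nA]; exact gg_norm hv)
  rw [abs_le] at ft x2 ⊢
  constructor <;> linarith

end Pool.Agent.H.KRot
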