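import Pool.Agent.H.MP_f4a04c_gt.B

set_option autoImplicit false

namespace Pool.Agent.H.KRot
open Real Set Matrix

theorem rot_of {ρ : Matrix (Fin 3) (Fin 3) ℝ} (h : ρ ∈ specialOrthogonalGroup (Fin 3) ℝ) :
    Rot (toEuclideanLin ρ) (toEuclideanLin ρᵀ) := by
  rw [mem_specialOrthogonalGroup_iff, mem_orthogonalGroup_iff] at h
  have h1 : ρ * ρᵀ = 1 := h.1
  have h2 : ρᵀ * ρ = 1 := mul_eq_one_comm.1 h1
  refine ⟨fun y u => ?_, fun u => ?_, fun u => ?_⟩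
  · rw [← LinearMap.adjoint_inner_right, ← toEuclideanLin_conjTranspose_eq_adjoint,
      conjTranspose_eq_transpose_of_trivial]
  · rw [← LinearMap.comp_apply, ← toLpLin_mul_same, h1, toLpLin_one, LinearMap.id_apply]
  · rw [← LinearMap.comp_apply, ← toLpLin_mul_same, h2, toLpLin_one, LinearMap.id_apply]

theorem entry (ρ : Matrix (Fin 3) (Fin 3) ℝ) : toEuclideanLin ρᵀ e0 0 = ρ 0 0 := by
  simp [e0, toLpLin_apply]

/-- quarter turn -/
def quarter : Matrix (Fin 3) (Fin 3) ℝ := !![0, -1, 0; 1, 0, 0; 0, 0, 1]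

theorem quarter_mem : quarter ∈ specialOrthogonalGroup (Fin 3) ℝ := by
  rw [mem_specialOrthogonalGroup_iff, mem_orthogonalGroup_iff]
  constructor
  · ext i j
    fin_cases i <;> fin_cases j <;> simp [quarter, Matrix.mul_apply, Fin.sum_univ_three]
  · simp [quarter, det_fin_three]

theorem no_path (γ : ℝ → Matrix (Fin 3) (Fin 3) ℝ) (δ : ℝ → E3) (hγ : ContinuousOn γ (Icc 0 1))
    (hδ : ContinuousOn δ (Icc 0 1)) (h0 : γ 0 = 1) (h1 : γ 1 = quarter)
    (h : ∀ t ∈ Icc (0 : ℝ) 1, γ t ∈ specialOrthogonalGroup (Fin 3) ℝ ∧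
      (fun v => toEuclideanLin (γ t) v + δ t) '' SS ⊆ KK) : False := by
  have hz : ContinuousOn (fun t => γ t 0 0) (Icc 0 1) :=
    (show Continuous fun M : Matrix (Fin 3) (Fin 3) ℝ => M 0 0 by fun_prop).comp_continuousOn hγ
  have hd : ContinuousOn (fun t => δ t 2) (Icc 0 1) :=
    (EuclideanSpace.proj (𝕜 := ℝ) (2 : Fin 3)).continuous.comp_continuousOn hδ
  have hc : IsCompact (Icc (0 : ℝ) 1 ∩ (fun t => γ t 0 0) ⁻¹' {1}) :=
    isCompact_Icc.of_isClosed_subset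
      (hz.preimage_isClosed_of_isClosed isClosed_Icc isClosed_singleton) inter_subset_left
  obtain ⟨T, ⟨hT, hT1⟩, hmax⟩ := hc.exists_isGreatest ⟨0, ⟨le_rfl, zero_le_one⟩, by simp [h0]⟩
  have hT1 : γ T 0 0 = 1 := hT1
  have T1 : T < 1 := by
    refine lt_of_le_of_ne hT.2 fun e => ?_
    rw [e, h1] at hT1
    simp [quarter] at hT1
  obtain ⟨η, η0, hη⟩ := Metric.continuousWithinAt_iff.1 (hd T hT) (7 / 10) (by norm_num)
  set t₁ := min 1 (T + η / 2) with ht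
  have a1 : T < t₁ := lt_min T1 (by linarith)
  have a2 : t₁ ≤ 1 := min_le_left _ _
  have a3 : t₁ ≤ T + η / 2 := min_le_right _ _
  have sub : Icc T t₁ ⊆ Icc 0 1 := Icc_subset_Icc hT.1 a2
  have m1 : t₁ ∈ Icc (0 : ℝ) 1 := sub ⟨a1.le, le_rfl⟩
  have z1 : γ t₁ 0 0 < 1 := by
    have r := rot_of (h t₁ m1).1
    have b := coord_le (toEuclideanLin (γ t₁)ᵀ e0) 0
    rw [r.nB, e0_norm, entry] at b
    refine lt_of_le_of_ne (abs_le.1 b).2 fun e => ?_
    have := hmax ⟨m1, e⟩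
    linarith
  have ivt := intermediate_value_Icc' a1.le (hz.mono sub)
  have key : ∀ z, γ t₁ 0 0 ≤ z → 0 ≤ z → z < 1 →
      ∃ d, |d - δ T 2| < 7 / 10 ∧ |mm z - d / 400| ≤ 787 / 100000 := fun z b1 b2 b3 => by
    obtain ⟨t, ht, e⟩ := ivt (show z ∈ Icc _ _ from ⟨b1, by rw [hT1]; exact b3.le⟩)
    have e : γ t 0 0 = z := e
    refine ⟨δ t 2, ?_, ?_⟩
    · have := hη (sub ht) (by
        rw [Real.dist_eq, abs_lt]
        constructor <;> linarith [ht.1, ht.2])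
      rwa [Real.dist_eq] at this
    · have := (rot_of (h t (sub ht)).1).force (h t (sub ht)).2 (by rw [entry, e]; nlinarith)
      rwa [entry, e] at this
  obtain ⟨z, b1, b2, b3, b4⟩ := shell_pos z1
  obtain ⟨z', c1, c2, c3, c4⟩ := shell_neg z1
  obtain ⟨d, d1, d2⟩ := key z b1 b2 b3
  obtain ⟨d', f1, f2⟩ := key z' c1 c2 c3
  rw [abs_le] at d2 f2
  rw [abs_lt] at d1 f1
  linarith

end Pool.Agent.H.KRot
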